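import Mathlib

/-!
# The orbit of `∞` may miss the first Pellian convergent (MP_c624c9_nt)

Let `k = 375`.  The convergents of `√375` are `19, 39/2, 58/3, 155/8, …`; the first of them with
`R(k, d) ∈ ℤ` is `d = 155/8` (`R = -3844`).  The orbit of `∞` under `f(x) = (d x + k) / (x + d)` is
`155/8, 9605/496, 595355/30744, 36902405/1905632, 457470751/23623688, …`; its first Pellian member
is the fifth one, with numerator `457470751`.  But the first Pellian convergent of `√375` is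
`15124/781`.
-/

set_option autoImplicit false

namespace Pool.Agent.Results.MP_c624c9_nt.OrbitMissesFirstPellian

open OnePoint

/-- `R(k, d) = 4 d ^ 2 / (k - d ^ 2)`. -/
def R (k : ℕ) (d : ℚ) : ℚ := 4 * d ^ 2 / (k - d ^ 2)

/-- The map `x ↦ (d x + k) / (x + d)` on `ℚ ∪ {∞}`; it sends `∞` to `d`. -/
def f (k : ℕ) (d : ℚ) : OnePoint ℚ → OnePoint ℚ
  | OnePoint.infty => OnePoint.some d
  | OnePoint.some x => if x + d = 0 then ∞ else OnePoint.some ((d * x + k) / (x + d))

/-- The positive rational number `r`, in lowest terms `p / q`, satisfies `p ^ 2 - k q ^ 2 = ± 1`. -/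
def IsPellian (k : ℕ) (r : ℚ) : Prop :=
  0 < r ∧ (r.num ^ 2 - k * (r.den : ℤ) ^ 2 = 1 ∨ r.num ^ 2 - k * (r.den : ℤ) ^ 2 = -1)

/-- The `i`-th convergent of the continued fraction expansion of `√k`, `i = 0, 1, 2, …`. -/
noncomputable def conv (k i : ℕ) : ℚ := (√(k : ℝ)).convergent i

/-! ### Continued fraction expansion of `√375` -/

/-- `√375`. -/
noncomputable abbrev s : ℝ := √((375 : ℕ) : ℝ)

lemma s_sq : s * s = 375 := by
  have := Real.mul_self_sqrt (show (0 : ℝ) ≤ ((375 : ℕ) : ℝ) by positivity)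
  rw [this]; norm_num

lemma s_lo : (19.364 : ℝ) < s := by
  apply Real.lt_sqrt_of_sq_lt; norm_num

lemma s_hi : s < (19.365 : ℝ) := by
  rw [Real.sqrt_lt' (by norm_num)]; norm_num

/-- One step of the continued fraction expansion of `(√375 + m) / d`. -/
lemma step (m d a m' d' : ℤ) (hd : 0 < d) (hd' : 0 < d') (hm : m' = a * d - m)
    (hdd : d * d' = 375 - m' ^ 2) (h1 : (a : ℝ) * d - m ≤ 19.364)
    (h2 : 19.365 ≤ ((a : ℝ) + 1) * d - m) (n : ℕ) :
    ((s + m) / d).convergent (n + 1) = a + ((((s + m') / d').convergent n))⁻¹ ∧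
      ((s + m) / d).convergent 0 = a := by
  have hdR : (0 : ℝ) < d := by exact_mod_cast hd
  have hdR' : (0 : ℝ) < d' := by exact_mod_cast hd'
  have hfl : ⌊(s + m) / d⌋ = a := by
    rw [Int.floor_eq_iff]
    constructor
    · rw [le_div_iff₀ hdR]; linarith [s_lo]
    · rw [div_lt_iff₀ hdR]; linarith [s_hi]
  have hfr : (Int.fract ((s + m) / d))⁻¹ = (s + m') / d' := by
    rw [Int.fract, hfl]
    have hmR : (m' : ℝ) = a * d - m := by exact_mod_cast hm
    have hddR : (d : ℝ) * d' = 375 - (m' : ℝ) ^ 2 := by exact_mod_cast hdd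
    have hne : (s + m) / d - a ≠ 0 := by
      have : (s + m) / d - a = (s - m') / d := by rw [hmR]; field_simp; ring
      rw [this]
      have h3 : s - m' ≠ 0 := by
        intro h0
        have h4 : s = m' := by linarith
        have h5 := s_sq
        rw [h4] at h5
        have h6 : (m' * m' : ℤ) = 375 := by exact_mod_cast h5
        have h7 : m' ^ 2 = 375 := by nlinarith
        rw [h7] at hdd
        norm_num at hdd
        rcases hdd with h | h <;> omega
      exact div_ne_zero h3 hdR.ne'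
    rw [inv_eq_iff_eq_inv, inv_div, eq_div_iff (by
      intro h0
      have h4 : s = -m' := by linarith
      have h5 := s_sq
      rw [h4] at h5
      have h6 : (m' * m' : ℤ) = 375 := by
        have : (m' : ℝ) * m' = 375 := by linarith
        exact_mod_cast this
      have h7 : m' ^ 2 = 375 := by nlinarith
      rw [h7] at hdd
      norm_num at hdd
      rcases hdd with h | h <;> omega)]
    have : (s + m) / d - a = (s - m') / d := by rw [hmR]; field_simp; ring
    rw [this, div_mul_eq_mul_div, div_eq_iff hdR.ne']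
    have : (s - m') * (s + m') = s * s - (m' : ℝ) ^ 2 := by ring
    rw [this, s_sq]
    linarith
  constructor
  · rw [Real.convergent_succ, hfl, hfr]
  · rw [Real.convergent_zero, hfl]

/-- The complete quotients of `√375`. -/
noncomputable abbrev q (m d : ℤ) : ℝ := (s + m) / d

lemma st0 (n : ℕ) : (q 0 1).convergent (n + 1) = ((19 : ℤ) : ℚ) + ((q 19 14).convergent n)⁻¹ ∧
    (q 0 1).convergent 0 = ((19 : ℤ) : ℚ) :=
  step 0 1 19 19 14 (by norm_num) (by norm_num) (by norm_num) (by norm_num) (by norm_num)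
    (by norm_num) n
lemma st1 (n : ℕ) : (q 19 14).convergent (n + 1) = ((2 : ℤ) : ℚ) + ((q 9 21).convergent n)⁻¹ ∧
    (q 19 14).convergent 0 = ((2 : ℤ) : ℚ) :=
  step 19 14 2 9 21 (by norm_num) (by norm_num) (by norm_num) (by norm_num) (by norm_num)
    (by norm_num) n
lemma st2 (n : ℕ) : (q 9 21).convergent (n + 1) = ((1 : ℤ) : ℚ) + ((q 12 11).convergent n)⁻¹ ∧
    (q 9 21).convergent 0 = ((1 : ℤ) : ℚ) :=
  step 9 21 1 12 11 (by norm_num) (by norm_num) (by norm_num) (by norm_num) (by norm_num)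
    (by norm_num) n
lemma st3 (n : ℕ) : (q 12 11).convergent (n + 1) = ((2 : ℤ) : ℚ) + ((q 10 25).convergent n)⁻¹ ∧
    (q 12 11).convergent 0 = ((2 : ℤ) : ℚ) :=
  step 12 11 2 10 25 (by norm_num) (by norm_num) (by norm_num) (by norm_num) (by norm_num)
    (by norm_num) n
lemma st4 (n : ℕ) : (q 10 25).convergent (n + 1) = ((1 : ℤ) : ℚ) + ((q 15 6).convergent n)⁻¹ ∧
    (q 10 25).convergent 0 = ((1 : ℤ) : ℚ) :=
  step 10 25 1 15 6 (by norm_num) (by norm_num) (by norm_num) (by norm_num) (by norm_num)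
    (by norm_num) n
lemma st5 (n : ℕ) : (q 15 6).convergent (n + 1) = ((5 : ℤ) : ℚ) + ((q 15 25).convergent n)⁻¹ ∧
    (q 15 6).convergent 0 = ((5 : ℤ) : ℚ) :=
  step 15 6 5 15 25 (by norm_num) (by norm_num) (by norm_num) (by norm_num) (by norm_num)
    (by norm_num) n
lemma st6 (n : ℕ) : (q 15 25).convergent (n + 1) = ((1 : ℤ) : ℚ) + ((q 10 11).convergent n)⁻¹ ∧
    (q 15 25).convergent 0 = ((1 : ℤ) : ℚ) :=
  step 15 25 1 10 11 (by norm_num) (by norm_num) (by norm_num) (by norm_num) (by norm_num)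
    (by norm_num) n
lemma st7 (n : ℕ) : (q 10 11).convergent (n + 1) = ((2 : ℤ) : ℚ) + ((q 12 21).convergent n)⁻¹ ∧
    (q 10 11).convergent 0 = ((2 : ℤ) : ℚ) :=
  step 10 11 2 12 21 (by norm_num) (by norm_num) (by norm_num) (by norm_num) (by norm_num)
    (by norm_num) n
lemma st8 (n : ℕ) : (q 12 21).convergent (n + 1) = ((1 : ℤ) : ℚ) + ((q 9 14).convergent n)⁻¹ ∧
    (q 12 21).convergent 0 = ((1 : ℤ) : ℚ) :=
  step 12 21 1 9 14 (by norm_num) (by norm_num) (by norm_num) (by norm_num) (by norm_num)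
    (by norm_num) n
lemma st9 (n : ℕ) : (q 9 14).convergent (n + 1) = ((2 : ℤ) : ℚ) + ((q 19 1).convergent n)⁻¹ ∧
    (q 9 14).convergent 0 = ((2 : ℤ) : ℚ) :=
  step 9 14 2 19 1 (by norm_num) (by norm_num) (by norm_num) (by norm_num) (by norm_num)
    (by norm_num) n

lemma conv_eq (i : ℕ) : conv 375 i = (q 0 1).convergent i := by
  unfold conv q
  congr 1
  simp

lemma c0 : conv 375 0 = (19 : ℕ) / (1 : ℕ) := by
  rw [conv_eq, (st0 0).2]; norm_num
lemma c1 : conv 375 1 = (39 : ℕ) / (2 : ℕ) := by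
  rw [conv_eq, (st0 0).1, (st1 0).2]; norm_num
lemma c2 : conv 375 2 = (58 : ℕ) / (3 : ℕ) := by
  rw [conv_eq, (st0 1).1, (st1 0).1, (st2 0).2]; norm_num
lemma c3 : conv 375 3 = (155 : ℕ) / (8 : ℕ) := by
  rw [conv_eq, (st0 2).1, (st1 1).1, (st2 0).1, (st3 0).2]; norm_num
lemma c4 : conv 375 4 = (213 : ℕ) / (11 : ℕ) := by
  rw [conv_eq, (st0 3).1, (st1 2).1, (st2 1).1, (st3 0).1, (st4 0).2]; norm_num
lemma c5 : conv 375 5 = (1220 : ℕ) / (63 : ℕ) := by
  rw [conv_eq, (st0 4).1, (st1 3).1, (st2 2).1, (st3 1).1, (st4 0).1, (st5 0).2]; norm_num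
lemma c6 : conv 375 6 = (1433 : ℕ) / (74 : ℕ) := by
  rw [conv_eq, (st0 5).1, (st1 4).1, (st2 3).1, (st3 2).1, (st4 1).1, (st5 0).1, (st6 0).2]
  norm_num
lemma c7 : conv 375 7 = (4086 : ℕ) / (211 : ℕ) := by
  rw [conv_eq, (st0 6).1, (st1 5).1, (st2 4).1, (st3 3).1, (st4 2).1, (st5 1).1, (st6 0).1,
    (st7 0).2]
  norm_num
lemma c8 : conv 375 8 = (5519 : ℕ) / (285 : ℕ) := by
  rw [conv_eq, (st0 7).1, (st1 6).1, (st2 5).1, (st3 4).1, (st4 3).1, (st5 2).1, (st6 1).1,
    (st7 0).1, (st8 0).2]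
  norm_num
lemma c9 : conv 375 9 = (15124 : ℕ) / (781 : ℕ) := by
  rw [conv_eq, (st0 8).1, (st1 7).1, (st2 6).1, (st3 5).1, (st4 4).1, (st5 3).1, (st6 2).1,
    (st7 1).1, (st8 0).1, (st9 0).2]
  norm_num

/-- The Pellian condition for an explicit fraction in lowest terms. -/
lemma pell_iff (k a b : ℕ) (ha : 0 < a) (hb : 0 < b) (h : Nat.Coprime a b) :
    IsPellian k ((a : ℚ) / (b : ℚ)) ↔
      ((a : ℤ) ^ 2 - k * (b : ℤ) ^ 2 = 1 ∨ (a : ℤ) ^ 2 - k * (b : ℤ) ^ 2 = -1) := by
  have h1 : ((a : ℚ) / (b : ℚ)).num = a := by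
    have := Rat.num_div_eq_of_coprime (a := (a : ℤ)) (b := (b : ℤ)) (by exact_mod_cast hb)
      (by simpa using h)
    simpa using this
  have h2 : (((a : ℚ) / (b : ℚ)).den : ℤ) = b := by
    have := Rat.den_div_eq_of_coprime (a := (a : ℤ)) (b := (b : ℤ)) (by exact_mod_cast hb)
      (by simpa using h)
    simpa using this
  unfold IsPellian
  rw [h1, h2]
  constructor
  · exact fun h => h.2
  · exact fun h => ⟨by positivity, h⟩

/-- The `n + 1`-st member of the orbit of `∞`. -/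
lemma iterate_succ (k : ℕ) (d x y : ℚ) (n : ℕ) (h : (f k d)^[n] ∞ = OnePoint.some x) (hne : x + d ≠ 0)
    (hy : (d * x + k) / (x + d) = y) : (f k d)^[n + 1] ∞ = OnePoint.some y := by
  rw [Function.iterate_succ_apply', h]
  show (if x + d = 0 then ∞ else OnePoint.some ((d * x + k) / (x + d))) = OnePoint.some y
  rw [if_neg hne, hy]

/-- The conjecture fails for `k = 375`: for the convergent `d = d(k)` of `√k` of smallest index
`j` with `R(k, d) ∈ ℤ`, the first Pellian member `f^n(∞)`, `n ≥ 1`, of the orbit of `∞` is not the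
first Pellian convergent (the one of smallest index `l`) of `√k`. -/
theorem result : ∃ k : ℕ, 0 < k ∧ ¬ IsSquare k ∧ ∃ j l n : ℕ,
    IsLeast {i : ℕ | ∃ z : ℤ, R k (conv k i) = z} j ∧
    IsLeast {i : ℕ | IsPellian k (conv k i)} l ∧
    IsLeast {i : ℕ | 1 ≤ i ∧ ∃ x : ℚ, (f k (conv k j))^[i] ∞ = (x : OnePoint ℚ) ∧
      IsPellian k x} n ∧
    (f k (conv k j))^[n] ∞ ≠ ((conv k l : ℚ) : OnePoint ℚ) := by
  have i1 : (f 375 (conv 375 3))^[1] ∞ = OnePoint.some (((155 : ℕ) : ℚ) / ((8 : ℕ) : ℚ)) := by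
    show OnePoint.some (conv 375 3) = _
    rw [c3]
  have i2 : (f 375 (conv 375 3))^[2] ∞ = OnePoint.some (((9605 : ℕ) : ℚ) / ((496 : ℕ) : ℚ)) :=
    iterate_succ _ _ _ _ 1 i1 (by rw [c3]; norm_num) (by rw [c3]; norm_num)
  have i3 : (f 375 (conv 375 3))^[3] ∞ = OnePoint.some (((595355 : ℕ) : ℚ) / ((30744 : ℕ) : ℚ)) :=
    iterate_succ _ _ _ _ 2 i2 (by rw [c3]; norm_num) (by rw [c3]; norm_num)
  have i4 : (f 375 (conv 375 3))^[4] ∞ = OnePoint.some (((36902405 : ℕ) : ℚ) / ((1905632 : ℕ) : ℚ)) :=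
    iterate_succ _ _ _ _ 3 i3 (by rw [c3]; norm_num) (by rw [c3]; norm_num)
  have i5 : (f 375 (conv 375 3))^[5] ∞ = OnePoint.some (((457470751 : ℕ) : ℚ) / ((23623688 : ℕ) : ℚ)) :=
    iterate_succ _ _ _ _ 4 i4 (by rw [c3]; norm_num) (by rw [c3]; norm_num)
  refine ⟨375, by norm_num, ?_, 3, 9, 5, ⟨?_, ?_⟩, ⟨?_, ?_⟩, ⟨⟨by norm_num, _, i5, ?_⟩, ?_⟩, ?_⟩
  · rintro ⟨r, hr⟩
    have h1 : r < 20 := by nlinarith
    interval_cases r <;> omega
  · refine ⟨-3844, ?_⟩
    rw [c3]; unfold R; norm_num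
  · rintro i ⟨z, hz⟩
    by_contra hlt
    have hi : i = 0 ∨ i = 1 ∨ i = 2 := by omega
    rcases hi with rfl | rfl | rfl
    · rw [c0] at hz; unfold R at hz
      have h2 : ((7 * z : ℤ) : ℚ) = ((722 : ℤ) : ℚ) := by
        push_cast; rw [← hz]; norm_num
      have h3 : 7 * z = 722 := by exact_mod_cast h2
      omega
    · rw [c1] at hz; unfold R at hz
      have h2 : ((7 * z : ℤ) : ℚ) = ((-2028 : ℤ) : ℚ) := by
        push_cast; rw [← hz]; norm_num
      have h3 : 7 * z = -2028 := by exact_mod_cast h2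
      omega
    · rw [c2] at hz; unfold R at hz
      have h2 : ((11 * z : ℤ) : ℚ) = ((13456 : ℤ) : ℚ) := by
        push_cast; rw [← hz]; norm_num
      have h3 : 11 * z = 13456 := by exact_mod_cast h2
      omega
  · show IsPellian 375 (conv 375 9)
    rw [c9, pell_iff _ _ _ (by norm_num) (by norm_num) (by norm_num)]
    norm_num
  · intro i hi
    by_contra hlt
    have hi' : i = 0 ∨ i = 1 ∨ i = 2 ∨ i = 3 ∨ i = 4 ∨ i = 5 ∨ i = 6 ∨ i = 7 ∨ i = 8 := by omega
    have hi2 : IsPellian 375 (conv 375 i) := hi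
    rcases hi' with rfl | rfl | rfl | rfl | rfl | rfl | rfl | rfl | rfl
    · rw [c0, pell_iff _ _ _ (by norm_num) (by norm_num) (by norm_num)] at hi2; norm_num at hi2
    · rw [c1, pell_iff _ _ _ (by norm_num) (by norm_num) (by norm_num)] at hi2; norm_num at hi2
    · rw [c2, pell_iff _ _ _ (by norm_num) (by norm_num) (by norm_num)] at hi2; norm_num at hi2
    · rw [c3, pell_iff _ _ _ (by norm_num) (by norm_num) (by norm_num)] at hi2; norm_num at hi2
    · rw [c4, pell_iff _ _ _ (by norm_num) (by norm_num) (by norm_num)] at hi2; norm_num at hi2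
    · rw [c5, pell_iff _ _ _ (by norm_num) (by norm_num) (by norm_num)] at hi2; norm_num at hi2
    · rw [c6, pell_iff _ _ _ (by norm_num) (by norm_num) (by norm_num)] at hi2; norm_num at hi2
    · rw [c7, pell_iff _ _ _ (by norm_num) (by norm_num) (by norm_num)] at hi2; norm_num at hi2
    · rw [c8, pell_iff _ _ _ (by norm_num) (by norm_num) (by norm_num)] at hi2; norm_num at hi2
  · rw [pell_iff _ _ _ (by norm_num) (by norm_num) (by norm_num)]
    norm_num
  · rintro i ⟨hi1, x, hx, hpx⟩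
    by_contra hlt
    have hi' : i = 1 ∨ i = 2 ∨ i = 3 ∨ i = 4 := by omega
    rcases hi' with rfl | rfl | rfl | rfl
    · rw [i1] at hx
      have hx' := Option.some_injective _ hx
      rw [← hx', pell_iff _ _ _ (by norm_num) (by norm_num) (by norm_num)] at hpx
      norm_num at hpx
    · rw [i2] at hx
      have hx' := Option.some_injective _ hx
      rw [← hx', pell_iff _ _ _ (by norm_num) (by norm_num) (by norm_num)] at hpx
      norm_num at hpx
    · rw [i3] at hx
      have hx' := Option.some_injective _ hx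
      rw [← hx', pell_iff _ _ _ (by norm_num) (by norm_num) (by norm_num)] at hpx
      norm_num at hpx
    · rw [i4] at hx
      have hx' := Option.some_injective _ hx
      rw [← hx', pell_iff _ _ _ (by norm_num) (by norm_num) (by norm_num)] at hpx
      norm_num at hpx
  · rw [i5, c9]
    intro h
    have h' := Option.some_injective _ h
    norm_num at h'

end Pool.Agent.Results.MP_c624c9_nt.OrbitMissesFirstPellian
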